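import Mathlib

/-!
# Finitely many valuation rings of a field

Nagata's lemma and its consequence that pairwise incomparable valuation rings are independent in
the sense that every pattern of membership is realised.
-/

set_option autoImplicit false

namespace Pool.Agent.H635.NV

/-- in a local ring the sums `1 + x + ... + x^(M t)` are units for a suitable `M ≥ 1` and all `t` -/
theorem geom_unit {A : Type*} [CommRing A] [IsLocalRing A] (x : A) :
    ∃ M : ℕ, 0 < M ∧ ∀ t : ℕ, IsUnit (∑ j ∈ Finset.range (M * t + 1), x ^ j) := by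
  classical
  set r := IsLocalRing.residue A x with hr
  have key : ∀ k : ℕ, (∑ j ∈ Finset.range k, r ^ j) ≠ 0 →
      IsUnit (∑ j ∈ Finset.range k, x ^ j) := by
    intro k hk
    rw [← IsLocalRing.residue_ne_zero_iff_isUnit]
    rw [map_sum]
    simpa [map_pow] using hk
  by_cases h1 : r = 1
  · obtain ⟨q, hq⟩ := CharP.exists (IsLocalRing.ResidueField A)
    rcases Nat.eq_zero_or_pos q with h0 | h0
    · subst h0
      have : CharZero (IsLocalRing.ResidueField A) := CharP.charP_to_charZero _
      refine ⟨1, one_pos, fun t => key _ ?_⟩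
      rw [h1]
      simp only [one_pow, Finset.sum_const, Finset.card_range, nsmul_eq_mul, mul_one]
      exact_mod_cast Nat.succ_ne_zero (1 * t)
    · refine ⟨q, h0, fun t => key _ ?_⟩
      rw [h1]
      simp only [one_pow, Finset.sum_const, Finset.card_range, nsmul_eq_mul, mul_one]
      push_cast
      rw [CharP.cast_eq_zero]
      simp
  · have hgeom : ∀ k : ℕ, (∑ j ∈ Finset.range k, r ^ j) * (r - 1) = r ^ k - 1 := fun k =>
      geom_sum_mul r k
    by_cases h2 : ∃ M : ℕ, 0 < M ∧ r ^ M = 1
    · obtain ⟨M, hM, hrM⟩ := h2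
      refine ⟨M, hM, fun t => key _ ?_⟩
      intro h0
      have := hgeom (M * t + 1)
      rw [h0, zero_mul, pow_succ, pow_mul, hrM, one_pow, one_mul] at this
      exact h1 (sub_eq_zero.1 this.symm)
    · refine ⟨1, one_pos, fun t => key _ ?_⟩
      intro h0
      have := hgeom (1 * t + 1)
      rw [h0, zero_mul] at this
      exact h2 ⟨1 * t + 1, Nat.succ_pos _, sub_eq_zero.1 this.symm⟩

variable {K : Type*} [Field K]

/-- Nagata's lemma: for finitely many valuation rings and an element `x` there is `y ≠ 0` which is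
a unit in those which contain `x`, while `y` and `x y` are nonunits in the others. -/
theorem nagata {ι : Type*} (s : Finset ι) (V : ι → ValuationSubring K) (x : K) :
    ∃ y : K, y ≠ 0 ∧ ∀ i ∈ s, (x ∈ V i → (V i).valuation y = 1) ∧
      (x ∉ V i → (V i).valuation y < 1 ∧ (V i).valuation (x * y) < 1) := by
  classical
  have hM : ∀ i, ∃ M : ℕ, 0 < M ∧ (x ∈ V i → ∀ t : ℕ,
      (V i).valuation (∑ j ∈ Finset.range (M * t + 1), x ^ j) = 1) := by
    intro i
    by_cases hx : x ∈ V i
    · obtain ⟨M, hM, h⟩ := geom_unit (⟨x, hx⟩ : V i)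
      refine ⟨M, hM, fun _ t => ?_⟩
      have := (ValuationSubring.valuation_eq_one_iff (V i) _).1 (h t)
      rw [← this]
      congr 1
      push_cast
      rfl
    · exact ⟨1, one_pos, fun h => absurd h hx⟩
  choose M hM0 hM1 using hM
  set P : ℕ := ∏ i ∈ s, M i with hP
  have hP0 : 0 < P := Finset.prod_pos fun i _ => hM0 i
  set f : K := ∑ j ∈ Finset.range (P * 2 + 1), x ^ j with hf
  have hin : ∀ i ∈ s, x ∈ V i → (V i).valuation f = 1 := by
    intro i hi hx
    obtain ⟨c, hc⟩ := Finset.dvd_prod_of_mem M hi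
    have := hM1 i hx (c * 2)
    rw [← mul_assoc, ← hc] at this
    exact this
  have hout : ∀ i ∈ s, x ∉ V i → (V i).valuation f = (V i).valuation x ^ (P * 2) := by
    intro i hi hx
    have hvx : 1 < (V i).valuation x := by
      rw [← ValuationSubring.valuation_le_one_iff, not_le] at hx
      exact hx
    have hx0 : (V i).valuation x ≠ 0 := (lt_trans zero_lt_one hvx).ne'
    have hg : f * (x - 1) = x ^ (P * 2 + 1) - 1 := geom_sum_mul x _
    have e1 : (V i).valuation (x - 1) = (V i).valuation x := by
      apply Valuation.map_sub_eq_of_lt_left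
      rw [map_one]
      exact hvx
    have e2 : (V i).valuation (x ^ (P * 2 + 1) - 1) = (V i).valuation x ^ (P * 2 + 1) := by
      rw [← map_pow]
      apply Valuation.map_sub_eq_of_lt_left
      rw [map_one, map_pow]
      exact one_lt_pow₀ hvx (Nat.succ_ne_zero _)
    have := congrArg (V i).valuation hg
    rw [map_mul, e1, e2, pow_succ] at this
    exact mul_right_cancel₀ hx0 this
  by_cases hs : s = ∅
  · subst hs
    exact ⟨1, one_ne_zero, fun i hi => by simp at hi⟩
  obtain ⟨i₀, hi₀⟩ := Finset.nonempty_iff_ne_empty.2 hs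
  have hf0 : f ≠ 0 := by
    intro h0
    by_cases hx : x ∈ V i₀
    · have := hin i₀ hi₀ hx
      rw [h0, map_zero] at this
      exact zero_ne_one this
    · have := hout i₀ hi₀ hx
      rw [h0, map_zero] at this
      have hvx : 1 < (V i₀).valuation x := by
        rw [← ValuationSubring.valuation_le_one_iff, not_le] at hx
        exact hx
      exact (pow_ne_zero _ (lt_trans zero_lt_one hvx).ne') this.symm
  refine ⟨f⁻¹, inv_ne_zero hf0, fun i hi => ⟨fun hx => ?_, fun hx => ?_⟩⟩
  · rw [map_inv₀, hin i hi hx, inv_one]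
  · have hvx : 1 < (V i).valuation x := by
      rw [← ValuationSubring.valuation_le_one_iff, not_le] at hx
      exact hx
    have hx0 : (V i).valuation x ≠ 0 := (lt_trans zero_lt_one hvx).ne'
    have hpow : ∀ k : ℕ, k ≠ 0 → ((V i).valuation x ^ k)⁻¹ < 1 := fun k hk =>
      inv_lt_one_of_one_lt₀ (one_lt_pow₀ hvx hk)
    refine ⟨?_, ?_⟩
    · rw [map_inv₀, hout i hi hx]
      exact hpow _ (by omega)
    · rw [map_mul, map_inv₀, hout i hi hx]
      obtain ⟨k, hk⟩ : ∃ k, P * 2 = k + 1 := ⟨P * 2 - 1, by omega⟩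
      have hk0 : k ≠ 0 := by omega
      rw [hk, pow_succ, mul_inv, mul_comm ((V i).valuation x ^ k)⁻¹, ← mul_assoc,
        mul_inv_cancel₀ hx0, one_mul]
      exact hpow k hk0

/-- pairwise incomparable valuation rings: there are elements of all of them which are units in
exactly one of them -/
theorem exists_idem {n : ℕ} (V : Fin n → ValuationSubring K)
    (hV : ∀ i j, i ≠ j → ¬ V i ≤ V j) (i : Fin n) :
    ∃ z : K, (V i).valuation z = 1 ∧ ∀ j, j ≠ i → (V j).valuation z < 1 := by
  classical
  have h : ∀ j, ∃ y : K, (V i).valuation y = 1 ∧ (∀ l, (V l).valuation y ≤ 1) ∧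
      (j ≠ i → (V j).valuation y < 1) := by
    intro j
    by_cases hj : j = i
    · exact ⟨1, by simp, fun l => by simp, fun h => absurd hj h⟩
    · obtain ⟨a, ha, haj⟩ := SetLike.not_le_iff_exists.1 (hV i j (Ne.symm hj))
      obtain ⟨b, hb, hbi⟩ := SetLike.not_le_iff_exists.1 (hV j i hj)
      have hb0 : b ≠ 0 := fun h0 => hbi (h0 ▸ zero_mem _)
      have ha1 := (ValuationSubring.valuation_le_one_iff (V i) a).2 ha
      have haj1 : 1 < (V j).valuation a := by
        rw [← ValuationSubring.valuation_le_one_iff, not_le] at haj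
        exact haj
      have hb1 := (ValuationSubring.valuation_le_one_iff (V j) b).2 hb
      have hbi1 : 1 < (V i).valuation b := by
        rw [← ValuationSubring.valuation_le_one_iff, not_le] at hbi
        exact hbi
      have hxi : a / b ∈ V i := by
        rw [← ValuationSubring.valuation_le_one_iff, map_div₀]
        exact div_le_one_of_le₀ (ha1.trans hbi1.le) zero_le
      have hxj : a / b ∉ V j := by
        rw [← ValuationSubring.valuation_le_one_iff, map_div₀, not_le]
        have hbv : (0 : (V j).ValueGroup) < (V j).valuation b :=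
          zero_lt_iff.2 ((V j).valuation.ne_zero_iff.2 hb0)
        rw [one_lt_div₀ hbv]
        exact lt_of_le_of_lt hb1 haj1
      obtain ⟨y, -, hy⟩ := nagata Finset.univ V (a / b)
      refine ⟨y, (hy i (Finset.mem_univ _)).1 hxi, fun l => ?_, fun _ =>
        ((hy j (Finset.mem_univ _)).2 hxj).1⟩
      by_cases hl : a / b ∈ V l
      · exact ((hy l (Finset.mem_univ _)).1 hl).le
      · exact ((hy l (Finset.mem_univ _)).2 hl).1.le
  choose y hy1 hy2 hy3 using h
  refine ⟨∏ j, y j, ?_, fun j hj => ?_⟩
  · rw [map_prod]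
    exact Finset.prod_eq_one fun j _ => hy1 j
  · rw [map_prod, ← Finset.mul_prod_erase Finset.univ _ (Finset.mem_univ j)]
    have h1 : ∏ l ∈ Finset.univ.erase j, (V j).valuation (y l) ≤ 1 :=
      Finset.prod_le_one' fun l _ => hy2 l j
    exact lt_of_le_of_lt (mul_le_mul' le_rfl h1) (by rw [mul_one]; exact hy3 j hj)

/-- the sum over `J` of the elements of `exists_idem` is a unit exactly in the rings from `J` -/
theorem sum_idem {n : ℕ} (V : Fin n → ValuationSubring K) (z : Fin n → K)
    (hz : ∀ i, (V i).valuation (z i) = 1) (hz' : ∀ i j, j ≠ i → (V j).valuation (z i) < 1)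
    (J : Finset (Fin n)) (i : Fin n) :
    (i ∈ J → (V i).valuation (∑ j ∈ J, z j) = 1) ∧
      (i ∉ J → (V i).valuation (∑ j ∈ J, z j) < 1) := by
  classical
  have hlt : ∀ J : Finset (Fin n), i ∉ J → (V i).valuation (∑ j ∈ J, z j) < 1 := by
    intro J hi
    refine Valuation.map_sum_lt _ one_ne_zero fun j hj => hz' j i ?_
    rintro rfl
    exact hi hj
  refine ⟨fun hi => ?_, hlt J⟩
  rw [← Finset.add_sum_erase J z hi]
  rw [Valuation.map_add_eq_of_lt_left]
  · exact hz i
  · rw [hz i]
    exact hlt _ (Finset.notMem_erase i J)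

/-- pairwise incomparable nontrivial valuation rings are shattered by the elements of the field -/
theorem shatter {n : ℕ} (V : Fin n → ValuationSubring K) (hV : ∀ i j, i ≠ j → ¬ V i ≤ V j)
    (hT : ∀ i, V i ≠ ⊤) (J : Finset (Fin n)) : ∃ x : K, ∀ i, x ∈ V i ↔ i ∈ J := by
  classical
  choose z hz hz' using exists_idem V hV
  rcases J.eq_empty_or_nonempty with rfl | hJ
  · have h : ∀ i, ∃ w : K, w ∉ V i := by
      intro i
      by_contra hc
      push Not at hc
      exact hT i (eq_top_iff.2 fun x _ => hc x)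
    choose w hw using h
    have h2 : ∀ i, ∃ y : K, y ≠ 0 ∧ (∀ l, (V l).valuation y ≤ 1) ∧ (V i).valuation y < 1 := by
      intro i
      obtain ⟨y, hy0, hy⟩ := nagata Finset.univ V (w i)
      refine ⟨y, hy0, fun l => ?_, ((hy i (Finset.mem_univ _)).2 (hw i)).1⟩
      by_cases hl : w i ∈ V l
      · exact ((hy l (Finset.mem_univ _)).1 hl).le
      · exact ((hy l (Finset.mem_univ _)).2 hl).1.le
    choose y hy0 hy1 hy2 using h2
    refine ⟨(∏ j, y j)⁻¹, fun i => ?_⟩
    simp only [Finset.notMem_empty, iff_false]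
    rw [← ValuationSubring.valuation_le_one_iff, map_inv₀, not_le]
    have hp : (V i).valuation (∏ j, y j) < 1 := by
      rw [map_prod, ← Finset.mul_prod_erase Finset.univ _ (Finset.mem_univ i)]
      have h1 : ∏ l ∈ Finset.univ.erase i, (V i).valuation (y l) ≤ 1 :=
        Finset.prod_le_one' fun l _ => hy1 l i
      exact lt_of_le_of_lt (mul_le_mul' le_rfl h1) (by rw [mul_one]; exact hy2 i)
    have hp0 : (0 : (V i).ValueGroup) < (V i).valuation (∏ j, y j) :=
      zero_lt_iff.2 ((V i).valuation.ne_zero_iff.2 (Finset.prod_ne_zero_iff.2 fun j _ => hy0 j))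
    exact (one_lt_inv₀ hp0).2 hp
  · refine ⟨(∑ j ∈ J, z j)⁻¹, fun i => ?_⟩
    have h := sum_idem V z hz hz' J i
    rw [← ValuationSubring.valuation_le_one_iff, map_inv₀]
    constructor
    · intro hle
      by_contra hi
      have hlt := h.2 hi
      have h0 : (0 : (V i).ValueGroup) < (V i).valuation (∑ j ∈ J, z j) := by
        apply zero_lt_iff.2
        obtain ⟨i', hi'⟩ := hJ
        have := (sum_idem V z hz hz' J i').1 hi'
        apply (V i).valuation.ne_zero_iff.2
        intro h0
        rw [h0, map_zero] at this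
        exact zero_ne_one this
      exact absurd ((one_lt_inv₀ h0).2 hlt) (not_lt.2 hle)
    · intro hi
      rw [h.1 hi, inv_one]

end Pool.Agent.H635.NV
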