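import Pool.Agent.H635.NV.Alg

/-!
# Families of valuation rings with bounded antichains

If the antichains of a family of valuation rings have less than `N` members, then the intersection
of the family is the intersection of finitely many valuation rings, each of which is the
intersection of a chain in the family.
-/

set_option autoImplicit false

namespace Pool.Agent.H635.NV

variable {K : Type*} [Field K]

/-- overrings of a valuation ring are comparable -/
theorem comparable {A V V' : ValuationSubring K} (h : A ≤ V) (h' : A ≤ V') : V ≤ V' ∨ V' ≤ V := by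
  by_contra hc
  push Not at hc
  obtain ⟨a, ha, ha'⟩ := SetLike.not_le_iff_exists.1 hc.1
  obtain ⟨b, hb', hb⟩ := SetLike.not_le_iff_exists.1 hc.2
  have ha0 : a ≠ 0 := fun h0 => ha' (h0 ▸ zero_mem _)
  have hb0 : b ≠ 0 := fun h0 => hb (h0 ▸ zero_mem _)
  rcases A.mem_or_inv_mem (a / b) with h1 | h1
  · apply ha'
    have := V'.mul_mem _ _ (h' h1) hb'
    rwa [div_mul_cancel₀ _ hb0] at this
  · apply hb
    rw [inv_div] at h1
    have := V.mul_mem _ _ (h h1) ha
    rwa [div_mul_cancel₀ _ ha0] at this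

/-- the intersection of a chain of valuation rings -/
def inter (C : Set (ValuationSubring K)) (hC : IsChain (· ≤ ·) C) : ValuationSubring K where
  carrier := {x | ∀ V ∈ C, x ∈ V}
  mul_mem' := fun ha hb V hV => V.mul_mem _ _ (ha V hV) (hb V hV)
  one_mem' := fun V _ => V.one_mem
  add_mem' := fun ha hb V hV => V.add_mem _ _ (ha V hV) (hb V hV)
  zero_mem' := fun V _ => V.zero_mem
  neg_mem' := fun ha V hV => V.neg_mem _ (ha V hV)
  mem_or_inv_mem' := by
    intro x
    by_cases hx : ∀ V ∈ C, x ∈ V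
    · exact Or.inl hx
    · right
      push Not at hx
      obtain ⟨V₁, hV₁, hx₁⟩ := hx
      intro V hV
      rcases hC.total hV hV₁ with h | h
      · rcases V.mem_or_inv_mem x with h2 | h2
        · exact absurd (h h2) hx₁
        · exact h2
      · rcases V₁.mem_or_inv_mem x with h2 | h2
        · exact absurd h2 hx₁
        · exact h h2

theorem mem_inter {C : Set (ValuationSubring K)} {hC : IsChain (· ≤ ·) C} {x : K} :
    x ∈ inter C hC ↔ ∀ V ∈ C, x ∈ V := Iff.rfl

theorem inter_le {C : Set (ValuationSubring K)} {hC : IsChain (· ≤ ·) C} {V : ValuationSubring K}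
    (hV : V ∈ C) : inter C hC ≤ V := fun _ hx => hx V hV

/-- maximal chains of the family `F` -/
def MC (F C : Set (ValuationSubring K)) : Prop :=
  C ⊆ F ∧ IsChain (· ≤ ·) C ∧ ∀ V ∈ F, (∀ V' ∈ C, V ≤ V' ∨ V' ≤ V) → V ∈ C

theorem exists_MC (F : Set (ValuationSubring K)) {V : ValuationSubring K} (hV : V ∈ F) :
    ∃ C, MC F C ∧ V ∈ C := by
  obtain ⟨C, hVC, hC⟩ := zorn_subset_nonempty {C : Set (ValuationSubring K) |
      C ⊆ F ∧ IsChain (· ≤ ·) C} (by
    intro c hc hchain _
    refine ⟨⋃₀ c, ⟨Set.sUnion_subset fun s hs => (hc hs).1, ?_⟩, fun s hs =>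
      Set.subset_sUnion_of_mem hs⟩
    rintro a ⟨s, hs, has⟩ b ⟨t, ht, hbt⟩ hab
    rcases hchain.total hs ht with h | h
    · exact (hc ht).2 (h has) hbt hab
    · exact (hc hs).2 has (h hbt) hab) {V} ⟨Set.singleton_subset_iff.2 hV, by
      rintro a rfl b rfl hab
      exact absurd rfl hab⟩
  refine ⟨C, ⟨hC.1.1, hC.1.2, fun W hW hcomp => ?_⟩, hVC rfl⟩
  have h1 : insert W C ∈ {C : Set (ValuationSubring K) | C ⊆ F ∧ IsChain (· ≤ ·) C} := by
    refine ⟨Set.insert_subset hW hC.1.1, hC.1.2.insert fun b hb _ => hcomp b hb⟩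
  exact hC.2 h1 (Set.subset_insert _ _) (Set.mem_insert _ _)

theorem anti {F C₁ C₂ : Set (ValuationSubring K)} (h₁ : MC F C₁) (h₂ : MC F C₂)
    (hle : inter C₁ h₁.2.1 ≤ inter C₂ h₂.2.1) : inter C₁ h₁.2.1 = inter C₂ h₂.2.1 := by
  by_contra hne
  have hnle : ¬ inter C₂ h₂.2.1 ≤ inter C₁ h₁.2.1 := fun h => hne (le_antisymm hle h)
  obtain ⟨x, hx2, hx1⟩ := SetLike.not_le_iff_exists.1 hnle
  rw [mem_inter] at hx1
  push Not at hx1
  obtain ⟨V, hV, hxV⟩ := hx1
  have hVW : V ≤ inter C₂ h₂.2.1 := by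
    rcases comparable (inter_le hV) hle with h | h
    · exact h
    · exact absurd (h hx2) hxV
  have hVC : V ∈ C₂ := h₂.2.2 V (h₁.1 hV) fun V' hV' => Or.inl (hVW.trans (inter_le hV'))
  exact hxV (inter_le hVC hx2)

/-- a family without antichains of size `N` -/
theorem finite_minimal (F : Set (ValuationSubring K)) (N : ℕ)
    (hN : ∀ V : Fin N → ValuationSubring K, (∀ i, V i ∈ F) → ¬ ∀ i j, i ≠ j → ¬ V i ≤ V j) :
    ∃ W : Finset (ValuationSubring K),
      (∀ A ∈ W, ∃ C ⊆ F, C.Nonempty ∧ ∀ x, x ∈ A ↔ ∀ V ∈ C, x ∈ V) ∧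
      (∀ A ∈ W, ∀ B ∈ W, A ≤ B → A = B) ∧ (∀ V ∈ F, ∃ A ∈ W, A ≤ V) ∧ W.card < N := by
  classical
  set S : Set (ValuationSubring K) := {A | ∃ C, ∃ h : MC F C, C.Nonempty ∧ A = inter C h.2.1}
    with hS
  have hanti : ∀ A ∈ S, ∀ B ∈ S, A ≤ B → A = B := by
    rintro A ⟨C₁, h₁, -, rfl⟩ B ⟨C₂, h₂, -, rfl⟩ hle
    exact anti h₁ h₂ hle
  have hinj : ∀ f : Fin N → ValuationSubring K, Function.Injective f → ¬ ∀ i, f i ∈ S := by
    intro f hf hfS
    choose C hC hne hfC using hfS
    have hnle : ∀ i j, i ≠ j → ¬ f i ≤ f j := fun i j hij h =>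
      hij (hf (hanti _ ⟨C i, hC i, hne i, hfC i⟩ _ ⟨C j, hC j, hne j, hfC j⟩ h))
    have hsel : ∀ j, ∀ T : Finset (Fin N), ∃ V ∈ C j, ∀ i ∈ T, i ≠ j → ¬ f i ≤ V := by
      intro j T
      induction T using Finset.induction_on with
      | empty =>
        obtain ⟨V, hV⟩ := hne j
        exact ⟨V, hV, by simp⟩
      | insert a T _ ih =>
        obtain ⟨V, hV, hVT⟩ := ih
        by_cases haj : a = j
        · refine ⟨V, hV, fun i hi hij => ?_⟩
          rcases Finset.mem_insert.1 hi with rfl | hi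
          · exact absurd haj hij
          · exact hVT i hi hij
        · have h1 : ∃ V' ∈ C j, ¬ f a ≤ V' := by
            by_contra hc
            push Not at hc
            apply hnle a j haj
            rw [hfC j]
            intro x hx V' hV'
            exact hc V' hV' hx
          obtain ⟨V', hV', hfV'⟩ := h1
          rcases (hC j).2.1.total hV hV' with h | h
          · refine ⟨V, hV, fun i hi hij => ?_⟩
            rcases Finset.mem_insert.1 hi with rfl | hi
            · exact fun h2 => hfV' (h2.trans h)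
            · exact hVT i hi hij
          · refine ⟨V', hV', fun i hi hij => ?_⟩
            rcases Finset.mem_insert.1 hi with rfl | hi
            · exact hfV'
            · exact fun h2 => hVT i hi hij (h2.trans h)
    choose V hV hVn using fun j => hsel j Finset.univ
    refine hN V (fun j => (hC j).1 (hV j)) fun i j hij hle => ?_
    apply hVn j i (Finset.mem_univ _) hij
    refine le_trans ?_ hle
    rw [hfC i]
    exact inter_le (hV i)
  have hfin : S.Finite := by
    by_contra hinf
    have hinf' : S.Infinite := hinf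
    let g := hinf'.natEmbedding
    exact hinj (fun i => (g i.1 : ValuationSubring K)) (fun i j h => by
      have := g.injective (Subtype.ext h)
      exact Fin.ext this) fun i => (g i.1).2
  refine ⟨hfin.toFinset, fun A hA => ?_, fun A hA B hB => ?_, fun V hV => ?_, ?_⟩
  · rw [Set.Finite.mem_toFinset] at hA
    obtain ⟨C, h, hne, rfl⟩ := hA
    exact ⟨C, h.1, hne, fun x => mem_inter⟩
  · rw [Set.Finite.mem_toFinset] at hA hB
    exact hanti A hA B hB
  · obtain ⟨C, hC, hVC⟩ := exists_MC F hV
    exact ⟨inter C hC.2.1, by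
      rw [Set.Finite.mem_toFinset]
      exact ⟨C, hC, ⟨V, hVC⟩, rfl⟩, inter_le hVC⟩
  · by_contra hcard
    rw [not_lt] at hcard
    obtain ⟨T, hT, hTc⟩ := Finset.exists_subset_card_eq hcard
    let e := T.equivFinOfCardEq hTc
    refine hinj (fun i => (e.symm i : ValuationSubring K)) (fun i j h => ?_) fun i => ?_
    · exact e.symm.injective (Subtype.ext h)
    · have := hT (e.symm i).2
      rwa [Set.Finite.mem_toFinset] at this

end Pool.Agent.H635.NV
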