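import Pool.Agent.H635.NV.Chain

/-!
# Uniformly definable families of valuation rings: formulas
-/

set_option autoImplicit false

namespace Pool.Agent.H635.NV

open FirstOrder FirstOrder.Language

/-- Formulas in the language of rings. -/
abbrev RF (α : Type) : Type := FirstOrder.Language.ring.Formula α

variable {p : ℕ}

/-- `φ(x; b)` with the variable `i` for `x`. -/
def ati (φ : RF (Fin 1 ⊕ Fin p)) {β : Type} (i : β) : RF (Fin p ⊕ β) :=
  φ.relabel (Sum.elim (fun _ => Sum.inr i) Sum.inl)

variable {K : Type} [Field K] [FirstOrder.Ring.CompatibleRing K]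

theorem realize_ati (φ : RF (Fin 1 ⊕ Fin p)) {β : Type} (i : β) (b : Fin p → K) (v : β → K) :
    (ati φ i).Realize (Sum.elim b v) ↔ φ.Realize (Sum.elim (fun _ => v i) b) := by
  unfold ati
  rw [Formula.realize_relabel]
  have : (Sum.elim b v ∘ Sum.elim (fun _ : Fin 1 => (Sum.inr i : Fin p ⊕ β)) Sum.inl) =
      Sum.elim (fun _ => v i) b := by
    funext a
    rcases a with a | a <;> rfl
  rw [this]

/-- The formula which says that `φ(x; b)` defines a nontrivial valuation ring. -/
noncomputable def valF (φ : RF (Fin 1 ⊕ Fin p)) : RF (Fin p) :=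
  (Formula.iExs (Fin 1) (ati φ (0 : Fin 1)).not) ⊓
  (Formula.iAlls (Fin 3)
    (((((Term.var (Sum.inr 2) : FirstOrder.Language.ring.Term (Fin p ⊕ Fin 3)).equal 1).imp
        (ati φ (2 : Fin 3))) ⊓
      (((ati φ (0 : Fin 3)) ⊓ (ati φ (1 : Fin 3)) ⊓
        (((Term.var (Sum.inr 2) : FirstOrder.Language.ring.Term (Fin p ⊕ Fin 3)) +
          Term.var (Sum.inr 1)).equal (Term.var (Sum.inr 0)))).imp (ati φ (2 : Fin 3)))) ⊓
    ((((ati φ (0 : Fin 3)) ⊓ (ati φ (1 : Fin 3)) ⊓
        (((Term.var (Sum.inr 0) : FirstOrder.Language.ring.Term (Fin p ⊕ Fin 3)) *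
          Term.var (Sum.inr 1)).equal (Term.var (Sum.inr 2)))).imp (ati φ (2 : Fin 3))) ⊓
      ((((Term.var (Sum.inr 0) : FirstOrder.Language.ring.Term (Fin p ⊕ Fin 3)) *
          Term.var (Sum.inr 1)).equal 1).imp ((ati φ (0 : Fin 3)) ⊔ (ati φ (1 : Fin 3)))))))

theorem realize_valF (φ : RF (Fin 1 ⊕ Fin p)) (b : Fin p → K) :
    (valF φ).Realize b ↔ (∃ u : K, ¬ φ.Realize (Sum.elim (fun _ => u) b)) ∧
      ∀ x y z : K, ((z = 1 → φ.Realize (Sum.elim (fun _ => z) b)) ∧
        (φ.Realize (Sum.elim (fun _ => x) b) ∧ φ.Realize (Sum.elim (fun _ => y) b) ∧ z + y = x →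
          φ.Realize (Sum.elim (fun _ => z) b))) ∧
        (φ.Realize (Sum.elim (fun _ => x) b) ∧ φ.Realize (Sum.elim (fun _ => y) b) ∧ x * y = z →
          φ.Realize (Sum.elim (fun _ => z) b)) ∧
        (x * y = 1 → φ.Realize (Sum.elim (fun _ => x) b) ∨
          φ.Realize (Sum.elim (fun _ => y) b)) := by
  unfold valF
  rw [Formula.realize_inf, Formula.realize_iExs, Formula.realize_iAlls]
  simp only [Formula.realize_inf, Formula.realize_imp, Formula.realize_not, Formula.realize_sup,
    Formula.realize_equal, FirstOrder.Ring.realize_add, FirstOrder.Ring.realize_mul,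
    FirstOrder.Ring.realize_one, Term.realize_var, Sum.elim_inr]
  constructor
  · rintro ⟨⟨u, hu⟩, h⟩
    refine ⟨⟨u 0, ?_⟩, fun x y z => ?_⟩
    · intro h1
      exact hu ((realize_ati φ 0 b u).2 h1)
    · have h1 := h ![x, y, z]
      simp only [realize_ati, and_assoc] at h1 ⊢
      exact h1
  · rintro ⟨⟨u, hu⟩, h⟩
    refine ⟨⟨fun _ => u, ?_⟩, fun i => ?_⟩
    · intro h1
      exact hu ((realize_ati φ 0 b _).1 h1)
    · have h1 := h (i 0) (i 1) (i 2)
      simp only [realize_ati, and_assoc] at h1 ⊢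
      exact h1

/-- `V` is defined by `φ(x; b)`. -/
def DefBy (φ : RF (Fin 1 ⊕ Fin p)) (b : Fin p → K) (V : ValuationSubring K) : Prop :=
  ∀ x : K, x ∈ V ↔ φ.Realize (Sum.elim (fun _ => x) b)

theorem valF_iff (φ : RF (Fin 1 ⊕ Fin p)) (b : Fin p → K) :
    (valF φ).Realize b ↔ ∃ V : ValuationSubring K, V ≠ ⊤ ∧ DefBy φ b V := by
  rw [realize_valF]
  constructor
  · rintro ⟨⟨u, hu⟩, h⟩
    have h1 : φ.Realize (Sum.elim (fun _ => (1 : K)) b) := (h 0 0 1).1.1 rfl
    have hsub : ∀ x y : K, φ.Realize (Sum.elim (fun _ => x) b) →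
        φ.Realize (Sum.elim (fun _ => y) b) → φ.Realize (Sum.elim (fun _ => x - y) b) :=
      fun x y hx hy => (h x y (x - y)).1.2 ⟨hx, hy, by ring⟩
    have h0 : φ.Realize (Sum.elim (fun _ => (0 : K)) b) := by
      have := hsub 1 1 h1 h1
      rwa [sub_self] at this
    have hneg : ∀ x : K, φ.Realize (Sum.elim (fun _ => x) b) →
        φ.Realize (Sum.elim (fun _ => -x) b) := by
      intro x hx
      have := hsub 0 x h0 hx
      rwa [zero_sub] at this
    let V : ValuationSubring K :=
      { carrier := {x | φ.Realize (Sum.elim (fun _ => x) b)}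
        mul_mem' := fun {x y} hx hy => (h x y (x * y)).2.1 ⟨hx, hy, rfl⟩
        one_mem' := h1
        add_mem' := fun {x y} hx hy => by
          have := hsub x (-y) hx (hneg y hy)
          rwa [sub_neg_eq_add] at this
        zero_mem' := h0
        neg_mem' := fun {x} hx => hneg x hx
        mem_or_inv_mem' := fun x => by
          by_cases hx : x = 0
          · left
            rw [hx]
            exact h0
          · exact (h x x⁻¹ 0).2.2 (mul_inv_cancel₀ hx) }
    refine ⟨V, ?_, fun x => Iff.rfl⟩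
    intro hV
    apply hu
    have : u ∈ V := by rw [hV]; exact ValuationSubring.mem_top u
    exact this
  · rintro ⟨V, hV, hVφ⟩
    have h : ∃ u, u ∉ V := by
      by_contra hc
      push Not at hc
      exact hV (eq_top_iff.2 fun x _ => hc x)
    obtain ⟨u, hu⟩ := h
    refine ⟨⟨u, fun h => hu ((hVφ u).2 h)⟩, fun x y z => ?_⟩
    simp only [← hVφ _]
    refine ⟨⟨?_, ?_⟩, ?_, ?_⟩
    · rintro rfl
      exact V.one_mem
    · rintro ⟨hx, hy, h⟩
      have : z = x - y := by rw [← h]; ring
      rw [this, sub_eq_add_neg]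
      exact V.add_mem _ _ hx (V.neg_mem _ hy)
    · rintro ⟨hx, hy, rfl⟩
      exact V.mul_mem _ _ hx hy
    · intro h
      have hx : x ≠ 0 := by
        rintro rfl
        rw [zero_mul] at h
        exact zero_ne_one h
      have hy : y = x⁻¹ := eq_inv_of_mul_eq_one_right h
      rw [hy]
      exact V.mem_or_inv_mem x

/-- The formula which defines the intersection of all nontrivial valuation rings `φ(K; b)`. -/
noncomputable def interF (φ : RF (Fin 1 ⊕ Fin p)) : RF (Fin 1) :=
  Formula.iAlls (Fin p) (((valF φ).relabel (Sum.inr : Fin p → Fin 1 ⊕ Fin p)).imp φ)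

theorem realize_interF (φ : RF (Fin 1 ⊕ Fin p)) (x : K) :
    (interF φ).Realize (fun _ => x) ↔
      ∀ V : ValuationSubring K, V ≠ ⊤ → (∃ b, DefBy φ b V) → x ∈ V := by
  unfold interF
  rw [Formula.realize_iAlls]
  constructor
  · rintro h V hV ⟨b, hb⟩
    have h1 := h b
    rw [Formula.realize_imp, Formula.realize_relabel] at h1
    exact (hb x).2 (h1 ((valF_iff φ b).2 ⟨V, hV, hb⟩))
  · intro h b
    rw [Formula.realize_imp, Formula.realize_relabel]
    intro hb
    obtain ⟨V, hV, hVb⟩ := (valF_iff φ b).1 hb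
    exact (hVb x).1 (h V hV ⟨b, hVb⟩)

/-- The formula which defines one of the finitely many valuation rings with intersection `ψ`. -/
noncomputable def locF (ψ : RF (Fin 1)) : RF (Fin 1 ⊕ Fin 2) :=
  Formula.iExs (Fin 3)
    (((ψ.relabel (fun _ => (Sum.inr 0 : (Fin 1 ⊕ Fin 2) ⊕ Fin 3))) ⊓
      ((ψ.relabel (fun _ => (Sum.inr 1 : (Fin 1 ⊕ Fin 2) ⊕ Fin 3))) ⊓
        (ψ.relabel (fun _ => (Sum.inr 2 : (Fin 1 ⊕ Fin 2) ⊕ Fin 3))))) ⊓
      (((Term.var (Sum.inr 1) : FirstOrder.Language.ring.Term ((Fin 1 ⊕ Fin 2) ⊕ Fin 3)).equal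
          (Term.var (Sum.inl (Sum.inl 0)) * Term.var (Sum.inr 0))) ⊓
        (((Term.var (Sum.inr 2) : FirstOrder.Language.ring.Term ((Fin 1 ⊕ Fin 2) ⊕ Fin 3)) *
          (Term.var (Sum.inr 0) * Term.var (Sum.inl (Sum.inr 0)) +
            Term.var (Sum.inl (Sum.inr 1)))).equal 1)))

theorem realize_locF (ψ : RF (Fin 1)) (x z z' : K) :
    (locF ψ).Realize (Sum.elim (fun _ => x) ![z, z']) ↔ ∃ y t w : K,
      (ψ.Realize (fun _ => y) ∧ ψ.Realize (fun _ => t) ∧ ψ.Realize (fun _ => w)) ∧
        t = x * y ∧ w * (y * z + z') = 1 := by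
  unfold locF
  rw [Formula.realize_iExs]
  simp only [Formula.realize_inf, Formula.realize_relabel,
    Formula.realize_equal, FirstOrder.Ring.realize_add, FirstOrder.Ring.realize_mul,
    FirstOrder.Ring.realize_one, Term.realize_var, Sum.elim_inr, Sum.elim_inl, Function.comp_def]
  constructor
  · rintro ⟨i, h⟩
    exact ⟨i 0, i 1, i 2, h⟩
  · rintro ⟨y, t, w, h⟩
    exact ⟨![y, t, w], h⟩

omit [FirstOrder.Ring.CompatibleRing K] in
/-- The definition of one of finitely many incomparable valuation rings from their intersection. -/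
theorem mem_iff_loc {n : ℕ} (V : Fin n → ValuationSubring K) (z : Fin n → K)
    (hz : ∀ i, (V i).valuation (z i) = 1) (hz' : ∀ i j, j ≠ i → (V j).valuation (z i) < 1)
    (i : Fin n) (x : K) :
    x ∈ V i ↔ ∃ y t w : K, ((∀ j, y ∈ V j) ∧ (∀ j, t ∈ V j) ∧ (∀ j, w ∈ V j)) ∧
      t = x * y ∧ w * (y * z i + ∑ j ∈ Finset.univ.erase i, z j) = 1 := by
  classical
  constructor
  · intro hx
    obtain ⟨y, hy0, hy⟩ := nagata Finset.univ V x
    have hyi : (V i).valuation y = 1 := (hy i (Finset.mem_univ i)).1 hx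
    have hu : ∀ j, (V j).valuation (y * z i + ∑ j ∈ Finset.univ.erase i, z j) = 1 := by
      intro j
      have h1 := sum_idem V z hz hz' (Finset.univ.erase i) j
      by_cases hj : j = i
      · subst hj
        have h2 := h1.2 (Finset.notMem_erase j _)
        have h3 : (V j).valuation (y * z j) = 1 := by rw [map_mul, hyi, hz j, one_mul]
        rw [Valuation.map_add_eq_of_lt_left, h3]
        rw [h3]
        exact h2
      · have h2 := h1.1 (Finset.mem_erase.2 ⟨hj, Finset.mem_univ j⟩)
        have hyj : (V j).valuation y ≤ 1 := by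
          by_cases hxj : x ∈ V j
          · exact ((hy j (Finset.mem_univ j)).1 hxj).le
          · exact ((hy j (Finset.mem_univ j)).2 hxj).1.le
        have h3 : (V j).valuation (y * z i) < 1 := by
          rw [map_mul]
          exact lt_of_le_of_lt (mul_le_mul' hyj le_rfl) (by rw [one_mul]; exact hz' i j hj)
        rw [Valuation.map_add_eq_of_lt_right, h2]
        rw [h2]
        exact h3
    have hu0 : y * z i + ∑ j ∈ Finset.univ.erase i, z j ≠ 0 := by
      intro h0
      have := hu i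
      rw [h0, map_zero] at this
      exact zero_ne_one this
    refine ⟨y, x * y, (y * z i + ∑ j ∈ Finset.univ.erase i, z j)⁻¹, ⟨fun j => ?_, fun j => ?_,
      fun j => ?_⟩, rfl, inv_mul_cancel₀ hu0⟩
    · rw [← ValuationSubring.valuation_le_one_iff]
      by_cases hxj : x ∈ V j
      · exact ((hy j (Finset.mem_univ j)).1 hxj).le
      · exact ((hy j (Finset.mem_univ j)).2 hxj).1.le
    · rw [← ValuationSubring.valuation_le_one_iff]
      by_cases hxj : x ∈ V j
      · rw [map_mul, (hy j (Finset.mem_univ j)).1 hxj, mul_one]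
        exact (ValuationSubring.valuation_le_one_iff (V j) x).2 hxj
      · exact ((hy j (Finset.mem_univ j)).2 hxj).2.le
    · rw [← ValuationSubring.valuation_le_one_iff, map_inv₀, hu j, inv_one]
  · rintro ⟨y, t, w, ⟨hy, ht, hw⟩, rfl, h⟩
    have h1 := (sum_idem V z hz hz' (Finset.univ.erase i) i).2 (Finset.notMem_erase i _)
    have hyi : (V i).valuation y = 1 := by
      apply le_antisymm ((ValuationSubring.valuation_le_one_iff (V i) y).2 (hy i))
      by_contra hlt
      rw [not_le] at hlt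
      have h2 : (V i).valuation (y * z i + ∑ j ∈ Finset.univ.erase i, z j) < 1 := by
        apply Valuation.map_add_lt _ _ h1
        rw [map_mul, hz i, mul_one]
        exact hlt
      have h3 : (V i).valuation (w * (y * z i + ∑ j ∈ Finset.univ.erase i, z j)) < 1 := by
        rw [map_mul]
        exact lt_of_le_of_lt (mul_le_mul' ((ValuationSubring.valuation_le_one_iff (V i) w).2 (hw i))
          le_rfl) (by rw [one_mul]; exact h2)
      rw [h, map_one] at h3
      exact lt_irrefl _ h3
    have h2 := (ValuationSubring.valuation_le_one_iff (V i) _).2 (ht i)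
    rw [map_mul, hyi, mul_one] at h2
    exact (ValuationSubring.valuation_le_one_iff (V i) x).1 h2

end Pool.Agent.H635.NV
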